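import Pool.Agent.H611Z.StubFin

set_option autoImplicit false

open Pool.Agent.H611Z.Stub

/-- A countably infinite homogeneous structure `B` in a finite relational signature, with
primitive automorphism group, which is stubborn, and a first-order reduct `A` of `B` which is a
model-complete core, such that every model-complete core `C` homomorphically equivalent to `A`
has at least two elements, is not interdefinable with any stubborn structure, and is not
interdefinable with the pure set of natural numbers. -/
theorem Pool.Agent.Results.MP_6065fc_lc.ANotClosed.result :
    ∃ (D : Type) (_ : Countable D) (_ : Infinite D) (σ τ : ℕ → Type)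
      (B : Str σ D) (A : Str τ D),
      Finite (Σ n, σ n) ∧ Homogeneous B ∧ Primitive B ∧ Stubborn B ∧ FoReduct A B ∧ MCCore A ∧
      ∀ (E : Type) (C : Str τ E), MCCore C → HomEquiv A C →
        Nontrivial E ∧ (∀ (ρ : ℕ → Type) (H : Str ρ E), Interdef C H → ¬ Stubborn H) ∧
        ¬ InterdefEq C :=
  main
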